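import Mathlib
import Pool.Agent.Work.MP_787500_nt.GP.LDefs

/-!
# Block LX, module LX0 (definitions): a ramified quadratic extension `E' = E (√l)`

`SqrtExt ι l m`: `m * m = ι l`, `E' = ι E + ι E m` and the two summands are independent for the norm.
-/

set_option autoImplicit false
set_option linter.unusedSectionVars false

namespace Pool.Agent.Work.MP_787500_nt.LX

open Matrix
open Pool.Agent.Work.MP_787500_nt.PA (toE)
open Pool.Agent.Work.MP_787500_nt.GP

/-- `E'` is `E` with a square root `m` of `l` adjoined -/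
structure SqrtExt {E E' : Type*} [NormedField E] [NormedAlgebra ℚ_[2] E] [NormedField E']
    [NormedAlgebra ℚ_[2] E'] (ι : E →ₐ[ℚ_[2]] E') (l : E) (m : E') : Prop where
  sq : m * m = ι l
  norm : ∀ x, ‖ι x‖ = ‖x‖
  split : ∀ z, ∃ x y, z = ι x + ι y * m
  add : ∀ x y, ‖ι x + ι y * m‖ = max ‖x‖ (‖y‖ * ‖m‖)

variable {E E' : Type*} [NormedField E] [NormedAlgebra ℚ_[2] E] [NormedField E']
  [NormedAlgebra ℚ_[2] E']

/-- the scalar extension of a space of functions: all `ι x + ι y m` with `x, y ∈ W` -/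
def extW {ι : E →ₐ[ℚ_[2]] E'} {l : E} {m : E'} (h : SqrtExt ι l m) {X : Type*} {n : ℕ}
    (W : Submodule E (X → Fin n → E)) : Submodule E' (X → Fin n → E') where
  carrier := {z | ∃ x ∈ W, ∃ y ∈ W, ∀ t i, z t i = ι (x t i) + ι (y t i) * m}
  add_mem' := by
    rintro z z' ⟨x, hx, y, hy, hz⟩ ⟨x', hx', y', hy', hz'⟩
    refine ⟨x + x', W.add_mem hx hx', y + y', W.add_mem hy hy', fun t i => ?_⟩
    simp only [Pi.add_apply, hz, hz', map_add]
    ring
  zero_mem' := ⟨0, W.zero_mem, 0, W.zero_mem, fun t i => by simp⟩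
  smul_mem' := by
    rintro c z ⟨x, hx, y, hy, hz⟩
    obtain ⟨p, q, hc⟩ := h.split c
    refine ⟨p • x + (q * l) • y, W.add_mem (W.smul_mem _ hx) (W.smul_mem _ hy), p • y + q • x,
      W.add_mem (W.smul_mem _ hy) (W.smul_mem _ hx), fun t i => ?_⟩
    simp only [Pi.add_apply, Pi.smul_apply, smul_eq_mul, hz, map_add, map_mul, ← h.sq]
    rw [hc]
    ring

theorem mem_extW {ι : E →ₐ[ℚ_[2]] E'} {l : E} {m : E'} {h : SqrtExt ι l m} {X : Type*} {n : ℕ}
    {W : Submodule E (X → Fin n → E)} {z : X → Fin n → E'} :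
    z ∈ extW h W ↔ ∃ x ∈ W, ∃ y ∈ W, ∀ t i, z t i = ι (x t i) + ι (y t i) * m := Iff.rfl

/-- a representation over `E` as a representation over `E'` -/
noncomputable def mapRep {G : Type*} [Group G] {n : ℕ} (ι : E →ₐ[ℚ_[2]] E') (ρ : G →* Matrix (Fin n) (Fin n) E) :
    G →* Matrix (Fin n) (Fin n) E' :=
  ((RingHom.mapMatrix (ι : E →+* E') :
    Matrix (Fin n) (Fin n) E →+* Matrix (Fin n) (Fin n) E')).toMonoidHom.comp ρ

theorem mapRep_apply {G : Type*} [Group G] {n : ℕ} (ι : E →ₐ[ℚ_[2]] E')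
    (ρ : G →* Matrix (Fin n) (Fin n) E) (g : G) : mapRep ι ρ g = (ρ g).map ι := rfl

end Pool.Agent.Work.MP_787500_nt.LX
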