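import Mathlib
import Pool.Agent.Work.MP_787500_nt.LX.Defs

/-!
# Module LX2 (size S-M): elementary properties of `SqrtExt`

All from `h.add`, `h.split`, `h.norm`, `‖m‖ ^ 2 = ‖l‖` and the maximality of `‖l‖` among the norms `< 1`
(if `‖y‖ * ‖m‖ < 1` or `≤ 1` then `‖y * l‖ ≤ ‖m‖ < 1`, so `‖y * l‖ ≤ ‖l‖`, so `‖y‖ ≤ 1`; if `‖y‖ < 1` then
`‖y‖ * ‖m‖ ≤ ‖l‖ ‖m‖`). The coordinates are continuous: `‖re z‖ ≤ ‖z‖`, `‖im z‖ ≤ ‖z‖ / ‖m‖`, additive.
-/

set_option autoImplicit false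
set_option linter.unusedSectionVars false

namespace Pool.Agent.Work.MP_787500_nt.LX

open Matrix
open Pool.Agent.Work.MP_787500_nt.PA (toE)
open Pool.Agent.Work.MP_787500_nt.GP

variable {E E' : Type*} [NormedField E] [NormedAlgebra ℚ_[2] E] [NormedField E']
  [NormedAlgebra ℚ_[2] E'] {ι : E →ₐ[ℚ_[2]] E'} {l : E} {m : E'}

theorem SqrtExt.ne (h : SqrtExt ι l m) (hl0 : l ≠ 0) : m ≠ 0 := by
  rintro rfl
  apply hl0
  have h1 : ‖(0 : E') * 0‖ = ‖l‖ := by rw [h.sq, h.norm]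
  rw [mul_zero, norm_zero] at h1
  exact norm_eq_zero.mp h1.symm

theorem SqrtExt.normsq (h : SqrtExt ι l m) : ‖m‖ * ‖m‖ = ‖l‖ := by
  rw [← norm_mul, h.sq, h.norm]

theorem SqrtExt.lt (h : SqrtExt ι l m) (hl1 : ‖l‖ < 1) : ‖m‖ < 1 := by
  by_contra hc
  rw [not_lt] at hc
  have h1 := h.normsq
  nlinarith [norm_nonneg m]

theorem SqrtExt.inj (h : SqrtExt ι l m) (hl0 : l ≠ 0) {x y x' y' : E}
    (e : ι x + ι y * m = ι x' + ι y' * m) : x = x' ∧ y = y' := by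
  have hm : 0 < ‖m‖ := norm_pos_iff.mpr (h.ne hl0)
  have h0 : ι (x - x') + ι (y - y') * m = 0 := by
    simp only [map_sub]
    linear_combination e
  have h1 := h.add (x - x') (y - y')
  rw [h0, norm_zero] at h1
  have h2 : ‖x - x'‖ ≤ 0 := h1 ▸ le_max_left _ _
  have h3 : ‖y - y'‖ * ‖m‖ ≤ 0 := h1 ▸ le_max_right _ _
  have h4 : ‖y - y'‖ ≤ 0 := by
    by_contra hc
    rw [not_le] at hc
    exact absurd (mul_pos hc hm) (not_lt.mpr h3)
  exact ⟨sub_eq_zero.mp (norm_le_zero_iff.mp h2), sub_eq_zero.mp (norm_le_zero_iff.mp h4)⟩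

private theorem X2_le_one (h : SqrtExt ι l m) (hl0 : l ≠ 0) (hl1 : ‖l‖ < 1)
    (hlm : ∀ x : E, ‖x‖ < 1 → ‖x‖ ≤ ‖l‖) {y : E} (hy : ‖y‖ * ‖m‖ ≤ 1) : ‖y‖ ≤ 1 := by
  have hm1 : ‖m‖ < 1 := h.lt hl1
  have hlp : 0 < ‖l‖ := norm_pos_iff.mpr hl0
  have h1 : ‖y * l‖ < 1 := by
    rw [norm_mul, ← h.normsq, ← mul_assoc]
    calc ‖y‖ * ‖m‖ * ‖m‖ ≤ 1 * ‖m‖ := mul_le_mul_of_nonneg_right hy (norm_nonneg _)
      _ < 1 := by rwa [one_mul]
  have h2 := hlm _ h1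
  rw [norm_mul] at h2
  by_contra hc
  rw [not_le] at hc
  have := mul_lt_mul_of_pos_right hc hlp
  rw [one_mul] at this
  exact absurd h2 (not_le.mpr this)

theorem SqrtExt.le_iff (h : SqrtExt ι l m) (hl0 : l ≠ 0) (hl1 : ‖l‖ < 1)
    (hlm : ∀ x : E, ‖x‖ < 1 → ‖x‖ ≤ ‖l‖) (x y : E) : ‖ι x + ι y * m‖ ≤ 1 ↔ ‖x‖ ≤ 1 ∧ ‖y‖ ≤ 1 := by
  rw [h.add, max_le_iff]
  refine and_congr_right fun _ => ⟨fun hy => X2_le_one h hl0 hl1 hlm hy, fun hy => ?_⟩
  exact mul_le_one₀ hy (norm_nonneg _) (h.lt hl1).le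

theorem SqrtExt.max (h : SqrtExt ι l m) (hl0 : l ≠ 0) (hl1 : ‖l‖ < 1)
    (hlm : ∀ x : E, ‖x‖ < 1 → ‖x‖ ≤ ‖l‖) (z : E') (hz : ‖z‖ < 1) : ‖z‖ ≤ ‖m‖ := by
  obtain ⟨x, y, rfl⟩ := h.split z
  rw [h.add] at hz ⊢
  have hx : ‖x‖ < 1 := lt_of_le_of_lt (le_max_left _ _) hz
  have hy : ‖y‖ * ‖m‖ < 1 := lt_of_le_of_lt (le_max_right _ _) hz
  have hm1 : ‖m‖ < 1 := h.lt hl1
  refine max_le ((hlm x hx).trans ?_) ?_
  · rw [← h.normsq]
    exact mul_le_of_le_one_left (norm_nonneg _) hm1.le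
  · exact mul_le_of_le_one_left (norm_nonneg _) (X2_le_one h hl0 hl1 hlm hy.le)

theorem SqrtExt.res (h : SqrtExt ι l m) (hl0 : l ≠ 0) (hl1 : ‖l‖ < 1)
    (hlm : ∀ x : E, ‖x‖ < 1 → ‖x‖ ≤ ‖l‖) (hr : ∀ x : E, ‖x‖ ≤ 1 → ‖x‖ < 1 ∨ ‖x - 1‖ < 1) (z : E')
    (hz : ‖z‖ ≤ 1) : ‖z‖ < 1 ∨ ‖z - 1‖ < 1 := by
  obtain ⟨x, y, rfl⟩ := h.split z
  have hxy := (h.le_iff hl0 hl1 hlm x y).mp hz
  have hm1 : ‖m‖ < 1 := h.lt hl1
  have hy : ‖y‖ * ‖m‖ < 1 :=
    lt_of_le_of_lt (mul_le_of_le_one_left (norm_nonneg _) hxy.2) hm1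
  rcases hr x hxy.1 with hx | hx
  · left
    rw [h.add]
    exact max_lt hx hy
  · right
    have e : ι x + ι y * m - 1 = ι (x - 1) + ι y * m := by
      rw [map_sub, map_one]
      ring
    rw [e, h.add]
    exact max_lt hx hy

theorem map_toE (ι : E →ₐ[ℚ_[2]] E') (x : ℤ_[2]) : ι (toE E x) = toE E' x := by
  exact ι.commutes _

theorem SqrtExt.cont (h : SqrtExt ι l m) : Continuous ι :=
  (AddMonoidHomClass.isometry_of_norm ι h.norm).continuous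

theorem SqrtExt.exists_coord (h : SqrtExt ι l m) (hl0 : l ≠ 0) :
    ∃ re im : E' → E, Continuous re ∧ Continuous im ∧ (∀ z, z = ι (re z) + ι (im z) * m) ∧
      (∀ x y, re (ι x + ι y * m) = x) ∧ (∀ x y, im (ι x + ι y * m) = y) ∧
      (∀ z z', re (z + z') = re z + re z') ∧ (∀ z z', im (z + z') = im z + im z') ∧
      (∀ a z, re (ι a * z) = a * re z) ∧ ∀ a z, im (ι a * z) = a * im z := by
  have hm : 0 < ‖m‖ := norm_pos_iff.mpr (h.ne hl0)
  choose re im hs using h.split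
  have hu : ∀ x y, re (ι x + ι y * m) = x ∧ im (ι x + ι y * m) = y := fun x y =>
    h.inj hl0 (hs (ι x + ι y * m)).symm
  have hadd : ∀ z z', re (z + z') = re z + re z' ∧ im (z + z') = im z + im z' := by
    intro z z'
    have e : z + z' = ι (re z + re z') + ι (im z + im z') * m := by
      conv_lhs => rw [hs z, hs z']
      rw [map_add, map_add]
      ring
    have := hu (re z + re z') (im z + im z')
    rw [← e] at this
    exact this
  have hmul : ∀ a z, re (ι a * z) = a * re z ∧ im (ι a * z) = a * im z := by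
    intro a z
    have e : ι a * z = ι (a * re z) + ι (a * im z) * m := by
      conv_lhs => rw [hs z]
      rw [map_mul, map_mul]
      ring
    have := hu (a * re z) (a * im z)
    rw [← e] at this
    exact this
  have hre : ∀ z, ‖re z‖ ≤ 1 * ‖z‖ := by
    intro z
    rw [one_mul]
    conv_rhs => rw [hs z, h.add]
    exact le_max_left _ _
  have him : ∀ z, ‖im z‖ ≤ ‖m‖⁻¹ * ‖z‖ := by
    intro z
    have h1 : ‖im z‖ * ‖m‖ ≤ ‖z‖ := by
      conv_rhs => rw [hs z, h.add]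
      exact le_max_right _ _
    rw [inv_mul_eq_div, le_div_iff₀ hm]
    exact h1
  have cre : Continuous re := by
    let f : E' →+ E := AddMonoidHom.mk' re fun z z' => (hadd z z').1
    exact AddMonoidHomClass.continuous_of_bound f 1 hre
  have cim : Continuous im := by
    let f : E' →+ E := AddMonoidHom.mk' im fun z z' => (hadd z z').2
    exact AddMonoidHomClass.continuous_of_bound f ‖m‖⁻¹ him
  exact ⟨re, im, cre, cim, hs, fun x y => (hu x y).1, fun x y => (hu x y).2, fun z z' => (hadd z z').1,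
    fun z z' => (hadd z z').2, fun a z => (hmul a z).1, fun a z => (hmul a z).2⟩

/-- two elements of norm at most 1 in `E`: the residue field has two elements -/
theorem card_res_two [IsLocalRing (OE E)] (hr : ∀ x : E, ‖x‖ ≤ 1 → ‖x‖ < 1 ∨ ‖x - 1‖ < 1) :
    Nat.card (IsLocalRing.ResidueField (OE E)) = 2 := by
  have key : ∀ x : OE E, ‖(x : E)‖ < 1 → IsLocalRing.residue (OE E) x = 0 := by
    intro x hx
    rw [IsLocalRing.residue_eq_zero_iff, IsLocalRing.mem_maximalIdeal, mem_nonunits_iff]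
    intro hu
    obtain ⟨y, hy⟩ := hu.exists_right_inv
    have h1 : ‖(x : E)‖ * ‖(y : E)‖ = 1 := by
      rw [← norm_mul]
      have : ((x * y : OE E) : E) = 1 := by rw [hy]; rfl
      have h2 : (x : E) * (y : E) = 1 := this
      rw [h2, norm_one]
    have h3 : ‖(y : E)‖ ≤ 1 := y.2
    have h4 : ‖(x : E)‖ * ‖(y : E)‖ ≤ ‖(x : E)‖ := mul_le_of_le_one_right (norm_nonneg _) h3
    linarith
  rw [Nat.card_eq_two_iff]
  refine ⟨0, 1, zero_ne_one, ?_⟩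
  rw [Set.eq_univ_iff_forall]
  intro r
  obtain ⟨x, rfl⟩ := IsLocalRing.residue_surjective r
  rcases hr (x : E) x.2 with hx | hx
  · left
    exact key x hx
  · right
    have h1 := key (x - 1) hx
    rw [map_sub, map_one, sub_eq_zero] at h1
    exact h1

end Pool.Agent.Work.MP_787500_nt.LX
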