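import Mathlib
import Pool.Agent.Work.MP_787500_nt.LX.X2_Ring

/-!
# Module LX4 (size M): dimensions of scalar extensions of spaces of functions

If `w_1, ..., w_k` is a basis of `W` then `ι ∘ w_1, ..., ι ∘ w_k` is a basis of `extW h W` over `E'`: a combination
with coefficients `ι a_i + ι b_i m` is `ι (∑ a_i w_i) + ι (∑ b_i w_i) m`.
-/

set_option autoImplicit false
set_option linter.unusedSectionVars false

namespace Pool.Agent.Work.MP_787500_nt.LX

open Matrix
open Pool.Agent.Work.MP_787500_nt.PA (toE)
open Pool.Agent.Work.MP_787500_nt.GP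

variable {E E' : Type*} [NormedField E] [NormedAlgebra ℚ_[2] E] [NormedField E']
  [NormedAlgebra ℚ_[2] E'] {ι : E →ₐ[ℚ_[2]] E'} {l : E} {m : E'} {X : Type*} {n : ℕ}

theorem extW_mono (h : SqrtExt ι l m) {W W' : Submodule E (X → Fin n → E)} (hW : W ≤ W') :
    extW h W ≤ extW h W' := by
  rintro z ⟨x, hx, y, hy, hz⟩
  exact ⟨x, hW hx, y, hW hy, hz⟩

/-- `ι ∘ x + ι ∘ y m` is in the extension iff `x` and `y` are in the space -/
theorem pair_mem (h : SqrtExt ι l m) (hl0 : l ≠ 0) (W : Submodule E (X → Fin n → E))
    (x y : X → Fin n → E) :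
    (fun t i => ι (x t i) + ι (y t i) * m) ∈ extW h W ↔ x ∈ W ∧ y ∈ W := by
  constructor
  · rintro ⟨x', hx, y', hy, hz⟩
    have h1 : ∀ t i, x t i = x' t i ∧ y t i = y' t i := fun t i => h.inj hl0 (hz t i)
    have e1 : x = x' := by
      funext t i
      exact (h1 t i).1
    have e2 : y = y' := by
      funext t i
      exact (h1 t i).2
    exact ⟨e1 ▸ hx, e2 ▸ hy⟩
  · rintro ⟨hx, hy⟩
    exact ⟨x, hx, y, hy, fun t i => rfl⟩

/-- the embedding of `W` in its scalar extension -/
private noncomputable def X4_emb (h : SqrtExt ι l m) (W : Submodule E (X → Fin n → E)) (x : W) : extW h W :=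
  ⟨fun t i => ι ((x : X → Fin n → E) t i), x, x.2, 0, W.zero_mem, fun t i => by simp⟩

private theorem X4_li (h : SqrtExt ι l m) (hl0 : l ≠ 0) (W : Submodule E (X → Fin n → E))
    {κ : Type*} (b : Module.Basis κ E W) : LinearIndependent E' fun k => X4_emb h W (b k) := by
  classical
  rw [linearIndependent_iff']
  intro s g hg k hk
  choose p q hpq using h.split
  have h1 : ∀ t i, ι (∑ k ∈ s, p (g k) * (b k : X → Fin n → E) t i) +
      ι (∑ k ∈ s, q (g k) * (b k : X → Fin n → E) t i) * m = ι 0 + ι 0 * m := by
    intro t i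
    have h2 := congrArg (fun z : extW h W => (z : X → Fin n → E') t i) hg
    simp only [Submodule.coe_sum, Submodule.coe_smul, Finset.sum_apply, Pi.smul_apply,
      smul_eq_mul, ZeroMemClass.coe_zero, Pi.zero_apply] at h2
    rw [map_zero, zero_mul, add_zero, ← h2, map_sum, map_sum, Finset.sum_mul,
      ← Finset.sum_add_distrib]
    refine Finset.sum_congr rfl fun j _ => ?_
    show _ = g j * ι ((b j : X → Fin n → E) t i)
    conv_rhs => rw [hpq (g j)]
    rw [map_mul, map_mul]
    ring
  have h3 : ∑ k ∈ s, p (g k) • b k = 0 := by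
    apply Subtype.ext
    funext t i
    simp only [Submodule.coe_sum, Submodule.coe_smul, Finset.sum_apply, Pi.smul_apply,
      smul_eq_mul, ZeroMemClass.coe_zero, Pi.zero_apply]
    exact (h.inj hl0 (h1 t i)).1
  have h4 : ∑ k ∈ s, q (g k) • b k = 0 := by
    apply Subtype.ext
    funext t i
    simp only [Submodule.coe_sum, Submodule.coe_smul, Finset.sum_apply, Pi.smul_apply,
      smul_eq_mul, ZeroMemClass.coe_zero, Pi.zero_apply]
    exact (h.inj hl0 (h1 t i)).2
  have h5 := linearIndependent_iff'.mp b.linearIndependent s _ h3 k hk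
  have h6 := linearIndependent_iff'.mp b.linearIndependent s _ h4 k hk
  rw [hpq (g k), h5, h6, map_zero, zero_mul, add_zero]

private theorem X4_span (h : SqrtExt ι l m) (W : Submodule E (X → Fin n → E))
    {κ : Type*} (b : Module.Basis κ E W) :
    ⊤ ≤ Submodule.span E' (Set.range fun k => X4_emb h W (b k)) := by
  have key : ∀ x : W, X4_emb h W x ∈ Submodule.span E' (Set.range fun k => X4_emb h W (b k)) := by
    intro x
    have hx : x ∈ Submodule.span E (Set.range b) := by
      rw [b.span_eq]
      trivial
    induction hx using Submodule.span_induction with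
    | mem x hx =>
      obtain ⟨k, rfl⟩ := hx
      exact Submodule.subset_span ⟨k, rfl⟩
    | zero =>
      have : X4_emb h W 0 = 0 := by
        apply Subtype.ext
        funext t i
        show ι ((0 : X → Fin n → E) t i) = 0
        simp
      rw [this]
      exact Submodule.zero_mem _
    | add x y _ _ hx hy =>
      have : X4_emb h W (x + y) = X4_emb h W x + X4_emb h W y := by
        apply Subtype.ext
        funext t i
        show ι (((x : X → Fin n → E) + y) t i) = ι ((x : X → Fin n → E) t i) + ι ((y : X → Fin n → E) t i)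
        simp
      rw [this]
      exact Submodule.add_mem _ hx hy
    | smul a x _ hx =>
      have : X4_emb h W (a • x) = (ι a) • X4_emb h W x := by
        apply Subtype.ext
        funext t i
        show ι ((a • (x : X → Fin n → E)) t i) = ι a * ι ((x : X → Fin n → E) t i)
        simp
      rw [this]
      exact Submodule.smul_mem _ _ hx
  rintro ⟨z, x, hx, y, hy, hz⟩ -
  have : (⟨z, x, hx, y, hy, hz⟩ : extW h W) = X4_emb h W ⟨x, hx⟩ + m • X4_emb h W ⟨y, hy⟩ := by
    apply Subtype.ext
    funext t i
    show z t i = ι (x t i) + m * ι (y t i)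
    rw [hz]
    ring
  rw [this]
  exact Submodule.add_mem _ (key _) (Submodule.smul_mem _ _ (key _))

private noncomputable def X4_basis (h : SqrtExt ι l m) (hl0 : l ≠ 0)
    (W : Submodule E (X → Fin n → E)) {κ : Type*} (b : Module.Basis κ E W) :
    Module.Basis κ E' (extW h W) :=
  Module.Basis.mk (X4_li h hl0 W b) (X4_span h W b)

theorem extW_fin (h : SqrtExt ι l m) (hl0 : l ≠ 0) (W : Submodule E (X → Fin n → E)) :
    FiniteDimensional E' (extW h W) ↔ FiniteDimensional E W := by
  let b := Module.Basis.ofVectorSpace E W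
  constructor
  · intro hf
    have : Finite (Module.Basis.ofVectorSpaceIndex E W) :=
      Module.Finite.finite_basis (X4_basis h hl0 W b)
    exact Module.Finite.of_basis b
  · intro hf
    have : Finite (Module.Basis.ofVectorSpaceIndex E W) := Module.Finite.finite_basis b
    exact Module.Finite.of_basis (X4_basis h hl0 W b)

theorem extW_finrank (h : SqrtExt ι l m) (hl0 : l ≠ 0) (W : Submodule E (X → Fin n → E)) :
    Module.finrank E' (extW h W) = Module.finrank E W := by
  let b := Module.Basis.ofVectorSpace E W
  rw [Module.finrank_eq_nat_card_basis b, Module.finrank_eq_nat_card_basis (X4_basis h hl0 W b)]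

theorem extW_dim (h : SqrtExt ι l m) (hl0 : l ≠ 0) {B W : Submodule E (X → Fin n → E)}
    (hBW : B ≤ W) [FiniteDimensional E W] :
    Parity.dimModulo (extW h W) (extW h B) = Parity.dimModulo W B := by
  have : FiniteDimensional E' (extW h W) := (extW_fin h hl0 W).mpr inferInstance
  have h1 : Module.finrank E (B.submoduleOf W) = Module.finrank E B :=
    (Submodule.submoduleOfEquivOfLe hBW).finrank_eq
  have h2 : Module.finrank E' ((extW h B).submoduleOf (extW h W)) = Module.finrank E' (extW h B) :=
    (Submodule.submoduleOfEquivOfLe (extW_mono h hBW)).finrank_eq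
  have h3 := Submodule.finrank_quotient_add_finrank (B.submoduleOf W)
  have h4 := Submodule.finrank_quotient_add_finrank ((extW h B).submoduleOf (extW h W))
  have h5 := extW_finrank h hl0 W
  have h6 := extW_finrank h hl0 B
  unfold Parity.dimModulo
  omega

end Pool.Agent.Work.MP_787500_nt.LX
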