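import Mathlib
import Pool.Agent.Work.MP_787500_nt.LX.Defs
import Pool.Agent.Work.MP_787500_nt.GP.L03_Ring

/-!
# Module LX1 (size M): existence of `E (√l)`

`X ^ 2 - l` is irreducible over `E`: a root `x` has `‖x‖ < 1`, so `‖x‖ ≤ ‖l‖` and `‖x‖ ^ 2 < ‖l‖`. `E' := AdjoinRoot
(X ^ 2 - C l)` (same universe), finite over `ℚ_[2]`, with the spectral norm (`spectralNorm.normedField`,
`spectralNorm.normedAlgebra` over `ℚ_[2]`; `NormedAlgebra ℚ_[2] E'`). `‖ι x‖ = ‖x‖` by uniqueness of the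
multiplicative extension of the norm of `ℚ_[2]` to the algebraic extension `E` (`spectralNorm_unique_field_norm_ext`
or similar). `‖m‖ ^ 2 = ‖l‖`. `‖ι x + ι y * m‖ = max`: the two norms are different if `y ≠ 0 ≠ x` (`‖x‖ / ‖y‖` is an
integral power of `‖l‖` by `GP.norm_zpow`, `‖m‖` is not), and unequal norms in an ultrametric field
(`Gn.ultra 2 E'`, `IsUltrametricDist.norm_add_eq_max_of_norm_ne_norm`).
-/

set_option autoImplicit false
set_option linter.unusedSectionVars false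

namespace Pool.Agent.Work.MP_787500_nt.LX

open Matrix
open Pool.Agent.Work.MP_787500_nt.PA (toE)
open Pool.Agent.Work.MP_787500_nt.GP

universe v

/-- the valuation part: if `m * m = ι l` and `ι` preserves the norm, the two summands are independent -/
private theorem x1_add {E E' : Type*} [NormedField E] [NormedAlgebra ℚ_[2] E] [FiniteDimensional ℚ_[2] E]
    [NormedField E'] [NormedAlgebra ℚ_[2] E']
    {l : E} (hl0 : l ≠ 0) (hl1 : ‖l‖ < 1) (hlm : ∀ x : E, ‖x‖ < 1 → ‖x‖ ≤ ‖l‖)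
    (ι : E →ₐ[ℚ_[2]] E') (m : E') (hsq : m * m = ι l) (hn : ∀ x, ‖ι x‖ = ‖x‖) (x y : E) :
    ‖ι x + ι y * m‖ = max ‖x‖ (‖y‖ * ‖m‖) := by
  have hu := Gn.ultra 2 E'
  have hl : 0 < ‖l‖ := norm_pos_iff.2 hl0
  have hm : ‖m‖ * ‖m‖ = ‖l‖ := by rw [← norm_mul, hsq, hn]
  rw [← hn x, ← hn y, ← norm_mul]
  by_cases hx : x = 0
  · rw [hx, map_zero, zero_add, norm_zero]
    exact (max_eq_right (norm_nonneg _)).symm
  by_cases hy : y = 0
  · rw [hy, map_zero, zero_mul, add_zero, norm_zero]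
    exact (max_eq_left (norm_nonneg _)).symm
  apply IsUltrametricDist.norm_add_eq_max_of_norm_ne_norm
  intro heq
  obtain ⟨a, ha⟩ := GP.norm_zpow (l := (⟨l, hl1.le⟩ : OE E)) hl0 hl1 hlm hx
  obtain ⟨b, hb⟩ := GP.norm_zpow (l := (⟨l, hl1.le⟩ : OE E)) hl0 hl1 hlm hy
  have ha' : ‖x‖ = ‖l‖ ^ a := ha
  have hb' : ‖y‖ = ‖l‖ ^ b := hb
  rw [norm_mul, hn, hn] at heq
  have h1 : ‖x‖ * ‖x‖ = ‖y‖ * ‖y‖ * ‖l‖ := by
    rw [← hm, heq]
    ring
  rw [ha', hb', ← zpow_add₀ hl.ne', ← zpow_add₀ hl.ne', ← zpow_add_one₀ hl.ne'] at h1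
  have h2 := zpow_right_injective₀ hl hl1.ne h1
  omega

theorem exists_sqrtExt {E : Type v} [NormedField E] [NormedAlgebra ℚ_[2] E] [FiniteDimensional ℚ_[2] E]
    {l : E} (hl0 : l ≠ 0) (hl1 : ‖l‖ < 1) (hlm : ∀ x : E, ‖x‖ < 1 → ‖x‖ ≤ ‖l‖) :
    ∃ (E' : Type v) (_ : NormedField E') (_ : NormedAlgebra ℚ_[2] E')
      (_ : FiniteDimensional ℚ_[2] E') (ι : E →ₐ[ℚ_[2]] E') (m : E'), SqrtExt ι l m := by
  classical
  have hl : 0 < ‖l‖ := norm_pos_iff.2 hl0
  have hirr : Irreducible (Polynomial.X ^ 2 - Polynomial.C l : Polynomial E) := by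
    apply X_pow_sub_C_irreducible_of_prime Nat.prime_two
    intro x hx
    have h2 : ‖x‖ ^ 2 = ‖l‖ := by rw [← norm_pow, hx]
    have hx1 : ‖x‖ < 1 := by
      by_contra h
      have h3 : 1 ≤ ‖x‖ ^ 2 := one_le_pow₀ (not_lt.1 h)
      linarith
    have h1 := hlm x hx1
    have h4 : ‖x‖ ^ 2 < ‖l‖ := by
      calc ‖x‖ ^ 2 = ‖x‖ * ‖x‖ := sq _
        _ ≤ ‖l‖ * ‖l‖ := mul_le_mul h1 h1 (norm_nonneg _) hl.le
        _ < ‖l‖ * 1 := mul_lt_mul_of_pos_left hl1 hl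
        _ = ‖l‖ := mul_one _
    exact absurd h2 h4.ne
  generalize hP : (Polynomial.X ^ 2 - Polynomial.C l : Polynomial E) = P at hirr
  have hF : Fact (Irreducible P) := ⟨hirr⟩
  have hmon : P.Monic := by
    rw [← hP]
    exact Polynomial.monic_X_pow_sub_C l two_ne_zero
  have hdeg : P.degree = 2 := by
    rw [← hP]
    exact Polynomial.degree_X_pow_sub_C two_pos l
  have hfE : FiniteDimensional E (AdjoinRoot P) := (AdjoinRoot.powerBasis hirr.ne_zero).finite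
  have hfQ : FiniteDimensional ℚ_[2] (AdjoinRoot P) := FiniteDimensional.trans ℚ_[2] E (AdjoinRoot P)
  have hsq : AdjoinRoot.root P * AdjoinRoot.root P = algebraMap E (AdjoinRoot P) l := by
    have h := AdjoinRoot.eval₂_root P
    have h2 : Polynomial.eval₂ (AdjoinRoot.of P) (AdjoinRoot.root P)
        (Polynomial.X ^ 2 - Polynomial.C l) = 0 := by
      rw [hP]
      exact h
    rw [Polynomial.eval₂_sub, Polynomial.eval₂_X_pow, Polynomial.eval₂_C, sub_eq_zero, sq] at h2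
    exact h2
  have hsplit : ∀ z : AdjoinRoot P, ∃ x y : E,
      z = algebraMap E (AdjoinRoot P) x + algebraMap E (AdjoinRoot P) y * AdjoinRoot.root P := by
    intro z
    obtain ⟨f, rfl⟩ := AdjoinRoot.mk_surjective z
    have h1 : AdjoinRoot.mk P f = AdjoinRoot.mk P (f %ₘ P) := by
      rw [AdjoinRoot.mk_eq_mk]
      exact ⟨f /ₘ P, by linear_combination -(Polynomial.modByMonic_add_div f P)⟩
    have h2 : (f %ₘ P).degree ≤ 1 := by
      have h3 := Polynomial.degree_modByMonic_lt f hmon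
      rw [hdeg] at h3
      exact Order.le_of_lt_succ h3
    refine ⟨(f %ₘ P).coeff 0, (f %ₘ P).coeff 1, ?_⟩
    rw [h1]
    conv_lhs => rw [Polynomial.eq_X_add_C_of_degree_le_one h2]
    rw [map_add, map_mul, AdjoinRoot.mk_X, AdjoinRoot.mk_C, AdjoinRoot.mk_C, add_comm]
    rfl
  let iN : NormedField (AdjoinRoot P) := spectralNorm.normedField ℚ_[2] (AdjoinRoot P)
  let iA : NormedAlgebra ℚ_[2] (AdjoinRoot P) := spectralNorm.normedAlgebra ℚ_[2] (AdjoinRoot P)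
  have hnorm : ∀ x : E, ‖(IsScalarTower.toAlgHom ℚ_[2] E (AdjoinRoot P) x : AdjoinRoot P)‖ = ‖x‖ := by
    intro x
    rw [NormedAlgebra.norm_eq_spectralNorm ℚ_[2] x]
    exact (spectralNorm.eq_of_tower (K := ℚ_[2]) (L := AdjoinRoot P) x).symm
  refine ⟨AdjoinRoot P, iN, iA, hfQ, IsScalarTower.toAlgHom ℚ_[2] E (AdjoinRoot P), AdjoinRoot.root P,
    ⟨hsq, hnorm, hsplit, ?_⟩⟩
  exact fun x y => x1_add hl0 hl1 hlm _ _ hsq hnorm x y

end Pool.Agent.Work.MP_787500_nt.LX
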