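import Mathlib
import Pool.Agent.Work.MP_787500_nt.LX.X4_Ext
import Pool.Agent.Work.MP_787500_nt.GP.FinDefs
import Pool.Agent.Work.MP_787500_nt.Gn.Defs

/-!
# Module LX5 (size M): the parity formula over `E (√l)` implies the parity formula over `E`

For `L` over `E` use `L' w = extW h (L w)`. `coboundaries`, `cocycles`, `selmerF` and the fixed vectors over `E'` are
the extensions (`extW`) of those over `E` (coordinates `re`, `im` of `SqrtExt.exists_coord`, continuous; the
cup product condition for `x + x' m` in `L'` and `y + y' m`: it suffices for `x = ι ∘ x₁`, and the coboundary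
condition splits into coordinates). For the fixed vectors: `fixedBy` is a space of vectors; use `extW` with
`X = Unit` or repeat the basis argument. Then `extW_finrank`, `extW_dim`.
-/

set_option autoImplicit false
set_option linter.unusedSectionVars false

namespace Pool.Agent.Work.MP_787500_nt.LX

open Matrix
open Pool.Agent.Work.MP_787500_nt.PA (toE)
open Pool.Agent.Work.MP_787500_nt.GP

variable {E E' : Type*} [NormedField E] [NormedAlgebra ℚ_[2] E] [FiniteDimensional ℚ_[2] E]
  [NormedField E'] [NormedAlgebra ℚ_[2] E'] [FiniteDimensional ℚ_[2] E'] {ι : E →ₐ[ℚ_[2]] E'}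
  {l : E} {m : E'} {n : ℕ} {G : Type*} [Group G] [TopologicalSpace G]

private theorem map_mulVec' (A : Matrix (Fin n) (Fin n) E) (x y : Fin n → E) :
    (A.map ι) *ᵥ (fun i => ι (x i) + ι (y i) * m) =
      fun i => ι ((A *ᵥ x) i) + ι ((A *ᵥ y) i) * m := by
  funext i
  simp only [mulVec, dotProduct, Matrix.map_apply, map_sum, map_mul, mul_add,
    Finset.sum_add_distrib, Finset.sum_mul, mul_assoc]

private theorem map_dot (x y y' : Fin n → E) :
    (fun i => ι (x i)) ⬝ᵥ (fun i => ι (y i) + ι (y' i) * m) = ι (x ⬝ᵥ y) + ι (x ⬝ᵥ y') * m := by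
  simp only [dotProduct, map_sum, map_mul, mul_add, Finset.sum_add_distrib, Finset.sum_mul,
    mul_assoc]

private theorem pr_inj (h : SqrtExt ι l m) (hl0 : l ≠ 0) {x y x' y' : Fin n → E}
    (e : (fun i => ι (x i) + ι (y i) * m) = fun i => ι (x' i) + ι (y' i) * m) :
    x = x' ∧ y = y' :=
  ⟨funext fun i => (h.inj hl0 (congrFun e i)).1, funext fun i => (h.inj hl0 (congrFun e i)).2⟩

private theorem eq_extW (h : SqrtExt ι l m) (hl0 : l ≠ 0) {X : Type*}
    {W : Submodule E (X → Fin n → E)} {W' : Submodule E' (X → Fin n → E')}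
    (hW : ∀ x y, (fun t i => ι (x t i) + ι (y t i) * m) ∈ W' ↔ x ∈ W ∧ y ∈ W) :
    W' = extW h W := by
  ext z
  choose x y hz using fun t i => h.split (z t i)
  have e : z = fun t i => ι (x t i) + ι (y t i) * m := funext fun t => funext fun i => hz t i
  rw [e, hW, pair_mem h hl0]

private theorem cob_iff (h : SqrtExt ι l m) (hl0 : l ≠ 0) {X : Type*}
    (A : X → Matrix (Fin n) (Fin n) E) (x y : X → Fin n → E) :
    (fun t i => ι (x t i) + ι (y t i) * m) ∈ Parity.coboundaries (fun t => (A t).map ι) ↔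
      x ∈ Parity.coboundaries A ∧ y ∈ Parity.coboundaries A := by
  have key : ∀ (v w : Fin n → E) (t : X), (A t).map ι *ᵥ (fun i => ι (v i) + ι (w i) * m) -
      (fun i => ι (v i) + ι (w i) * m) =
      fun i => ι ((A t *ᵥ v - v) i) + ι ((A t *ᵥ w - w) i) * m := by
    intro v w t
    rw [map_mulVec']
    funext i
    simp only [Pi.sub_apply, map_sub]
    ring
  constructor
  · rintro ⟨v', hv'⟩
    choose v w hvw using fun i => h.split (v' i)
    have e : v' = fun i => ι (v i) + ι (w i) * m := funext hvw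
    have h1 : ∀ t, x t = A t *ᵥ v - v ∧ y t = A t *ᵥ w - w := by
      intro t
      refine pr_inj h hl0 ?_
      rw [← key, ← e]
      exact hv' t
    exact ⟨⟨v, fun t => (h1 t).1⟩, ⟨w, fun t => (h1 t).2⟩⟩
  · rintro ⟨⟨v, hv⟩, ⟨w, hw⟩⟩
    refine ⟨fun i => ι (v i) + ι (w i) * m, fun t => ?_⟩
    show (fun i => ι (x t i) + ι (y t i) * m) = _
    rw [key, hv, hw]

section cocycles

variable {X : Type*} [Group X] [TopologicalSpace X]

private theorem coc_iff (h : SqrtExt ι l m) (hl0 : l ≠ 0)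
    (A : X → Matrix (Fin n) (Fin n) E) (x y : X → Fin n → E) :
    Parity.IsCocycle (fun t => (A t).map ι) (fun t i => ι (x t i) + ι (y t i) * m) ↔
      Parity.IsCocycle A x ∧ Parity.IsCocycle A y := by
  obtain ⟨re, im, hre, him, -, hre1, him1, -⟩ := h.exists_coord hl0
  have key : ∀ (v w v' w' : Fin n → E) (t : X), (fun i => ι (v i) + ι (w i) * m) +
      (A t).map ι *ᵥ (fun i => ι (v' i) + ι (w' i) * m) =
      fun i => ι ((v + A t *ᵥ v') i) + ι ((w + A t *ᵥ w') i) * m := by
    intro v w v' w' t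
    rw [map_mulVec']
    funext i
    simp only [Pi.add_apply, map_add]
    ring
  constructor
  · rintro ⟨hc, hz⟩
    have h1 : ∀ s t, x (s * t) = x s + A s *ᵥ x t ∧ y (s * t) = y s + A s *ᵥ y t := by
      intro s t
      refine pr_inj h hl0 ?_
      rw [← key]
      exact hz s t
    have hci : ∀ i, Continuous fun t => ι (x t i) + ι (y t i) * m := fun i =>
      (continuous_apply i).comp hc
    refine ⟨⟨continuous_pi fun i => ?_, fun s t => (h1 s t).1⟩,
      ⟨continuous_pi fun i => ?_, fun s t => (h1 s t).2⟩⟩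
    · have h2 := hre.comp (hci i)
      refine h2.congr fun t => ?_
      exact hre1 _ _
    · have h2 := him.comp (hci i)
      refine h2.congr fun t => ?_
      exact him1 _ _
  · rintro ⟨⟨hx, hx'⟩, ⟨hy, hy'⟩⟩
    refine ⟨continuous_pi fun i => ?_, fun s t => ?_⟩
    · exact (h.cont.comp ((continuous_apply i).comp hx)).add
        ((h.cont.comp ((continuous_apply i).comp hy)).mul continuous_const)
    · show (fun i => ι (x (s * t) i) + ι (y (s * t) i) * m) = _
      rw [key, hx', hy']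

private theorem perp_iff' (h : SqrtExt ι l m) (hl0 : l ≠ 0) {χ : X → ℤ_[2]}
    (B : X → Matrix (Fin n) (Fin n) E) (b : Matrix (Fin n) (Fin n) E)
    (L : Submodule E (X → Fin n → E)) (x y : X → Fin n → E) :
    Parity.IsPerp (fun t => toE E' (χ t)) (fun t => (B t).map ι) (b.map ι) (extW h L)
      (fun t i => ι (x t i) + ι (y t i) * m) ↔
      Parity.IsPerp (fun t => toE E (χ t)) B b L x ∧ Parity.IsPerp (fun t => toE E (χ t)) B b L y := by
  obtain ⟨re, im, hre, him, -, hre1, him1, hrea, hima, hres, hims⟩ := h.exists_coord hl0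
  have hres' : ∀ z z', re (z - z') = re z - re z' := fun z z' => by
    have := hrea (z - z') z'
    rw [sub_add_cancel] at this
    rw [this, add_sub_cancel_right]
  have hims' : ∀ z z', im (z - z') = im z - im z' := fun z z' => by
    have := hima (z - z') z'
    rw [sub_add_cancel] at this
    rw [this, add_sub_cancel_right]
  -- the cup product with a vector over `E`
  have key : ∀ (v : Fin n → E) (s t : X), (fun i => ι (v i)) ⬝ᵥ (b.map ι *ᵥ ((B s).map ι *ᵥ
      fun i => ι (x t i) + ι (y t i) * m)) =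
      ι (v ⬝ᵥ (b *ᵥ (B s *ᵥ x t))) + ι (v ⬝ᵥ (b *ᵥ (B s *ᵥ y t))) * m := by
    intro v s t
    rw [map_mulVec', map_mulVec', map_dot]
  constructor
  · rintro ⟨hc, hz⟩
    rw [coc_iff h hl0] at hc
    have h1 : ∀ v ∈ L, (∃ z : X → E, Continuous z ∧ ∀ s t, v s ⬝ᵥ (b *ᵥ (B s *ᵥ x t)) =
        z s + toE E (χ s) * z t - z (s * t)) ∧ ∃ z : X → E, Continuous z ∧
        ∀ s t, v s ⬝ᵥ (b *ᵥ (B s *ᵥ y t)) = z s + toE E (χ s) * z t - z (s * t) := by
      intro v hv
      obtain ⟨z, hzc, hz'⟩ := hz (fun t i => ι (v t i)) ⟨v, hv, 0, L.zero_mem, fun t i => by simp⟩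
      have h2 : ∀ s t, ι (v s ⬝ᵥ (b *ᵥ (B s *ᵥ x t))) + ι (v s ⬝ᵥ (b *ᵥ (B s *ᵥ y t))) * m =
          z s + ι (toE E (χ s)) * z t - z (s * t) := by
        intro s t
        rw [← key, map_toE]
        exact hz' s t
      refine ⟨⟨fun t => re (z t), hre.comp hzc, fun s t => ?_⟩,
        ⟨fun t => im (z t), him.comp hzc, fun s t => ?_⟩⟩
      · have h3 := congrArg re (h2 s t)
        rw [hre1, hres', hrea, hres] at h3
        exact h3
      · have h3 := congrArg im (h2 s t)
        rw [him1, hims', hima, hims] at h3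
        exact h3
    exact ⟨⟨hc.1, fun v hv => (h1 v hv).1⟩, ⟨hc.2, fun v hv => (h1 v hv).2⟩⟩
  · rintro ⟨⟨hx, hx'⟩, ⟨hy, hy'⟩⟩
    refine ⟨(coc_iff h hl0 B x y).2 ⟨hx, hy⟩, ?_⟩
    rintro v' ⟨v, hv, w, hw, hvw⟩
    obtain ⟨z1, c1, e1⟩ := hx' v hv
    obtain ⟨z2, c2, e2⟩ := hy' v hv
    obtain ⟨z3, c3, e3⟩ := hx' w hw
    obtain ⟨z4, c4, e4⟩ := hy' w hw
    refine ⟨fun t => ι (z1 t) + ι (z2 t) * m + (ι (z3 t) + ι (z4 t) * m) * m, ?_, fun s t => ?_⟩
    · exact (((h.cont.comp c1).add ((h.cont.comp c2).mul continuous_const))).add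
        ((((h.cont.comp c3).add ((h.cont.comp c4).mul continuous_const))).mul continuous_const)
    · have e5 : v' s = (fun i => ι (v s i)) + m • fun i => ι (w s i) := by
        funext i
        rw [hvw]
        simp only [Pi.add_apply, Pi.smul_apply, smul_eq_mul]
        ring
      rw [e5, add_dotProduct, smul_dotProduct, key, key, e1, e2, e3, e4]
      beta_reduce
      rw [← map_toE ι]
      simp only [map_add, map_sub, map_mul, smul_eq_mul]
      ring

end cocycles

private theorem fix_finrank (h : SqrtExt ι l m) (hl0 : l ≠ 0) {X : Type*}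
    (A : X → Matrix (Fin n) (Fin n) E) :
    Module.finrank E' (Parity.fixedBy fun t => (A t).map ι) =
      Module.finrank E (Parity.fixedBy A) := by
  let W : Submodule E (Unit → Fin n → E) := (Parity.fixedBy A).comap (LinearMap.proj ())
  let W' : Submodule E' (Unit → Fin n → E') :=
    (Parity.fixedBy fun t => (A t).map ι).comap (LinearMap.proj ())
  have h1 : W' = extW h W := by
    refine eq_extW h hl0 fun x y => ?_
    have key : ∀ t, (A t).map ι *ᵥ (fun i => ι (x () i) + ι (y () i) * m) =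
        fun i => ι ((A t *ᵥ x ()) i) + ι ((A t *ᵥ y ()) i) * m := fun t => map_mulVec' _ _ _
    constructor
    · intro hz
      have h2 : ∀ t, A t *ᵥ x () = x () ∧ A t *ᵥ y () = y () := by
        intro t
        refine pr_inj h hl0 ?_
        rw [← key]
        exact hz t
      exact ⟨fun t => (h2 t).1, fun t => (h2 t).2⟩
    · rintro ⟨hx, hy⟩ t
      show (A t).map ι *ᵥ (fun i => ι (x () i) + ι (y () i) * m) =
        fun i => ι (x () i) + ι (y () i) * m
      rw [key]
      have h2 : A t *ᵥ x () = x () := hx t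
      have h3 : A t *ᵥ y () = y () := hy t
      rw [h2, h3]
  have h2 : Module.finrank E W = Module.finrank E (Parity.fixedBy A) :=
    ((LinearEquiv.funUnique Unit E (Fin n → E)).submoduleMap W |>.trans (LinearEquiv.ofEq _ _ (by
      ext v
      constructor
      · rintro ⟨x, hx, rfl⟩
        exact hx
      · intro hv
        exact ⟨fun _ => v, hv, rfl⟩))).finrank_eq
  have h3 : Module.finrank E' W' =
      Module.finrank E' (Parity.fixedBy fun t => (A t).map ι) :=
    ((LinearEquiv.funUnique Unit E' (Fin n → E')).submoduleMap W' |>.trans (LinearEquiv.ofEq _ _ (by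
      ext v
      constructor
      · rintro ⟨x, hx, rfl⟩
        exact hx
      · intro hv
        exact ⟨fun _ => v, hv, rfl⟩))).finrank_eq
  rw [← h2, ← h3, h1, extW_finrank h hl0]

theorem conjDual_ext (h : SqrtExt ι l m) {N : Subgroup G} {I : Set G} {χ : G → ℤ_[2]} {κ : G → G}
    {ρ : G →* Matrix (Fin n) (Fin n) E} {b : Matrix (Fin n) (Fin n) E}
    (hρ : Gn.ConjDual 2 N I (fun g => toE E (χ g)) κ ρ b) :
    Gn.ConjDual 2 N I (fun g => toE E' (χ g)) κ (mapRep ι ρ) (b.map ι) := by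
  have hc : Continuous fun A : Matrix (Fin n) (Fin n) E => A.map ι :=
    continuous_id.matrix_map h.cont
  have h1 : (1 : Matrix (Fin n) (Fin n) E).map ι = 1 := Matrix.map_one _ (map_zero _) (map_one _)
  refine ⟨hc.comp hρ.cont, fun σ hσ => ?_, fun σ hσ => ?_, ?_, fun σ => ?_⟩
  · have h2 := (hc.tendsto 1).comp (hρ.proP σ hσ)
    rw [h1] at h2
    exact h2
  · rw [mapRep_apply, hρ.unram σ hσ, h1]
  · rw [← Matrix.transpose_map, hρ.symm]
  · have h2 := congrArg (fun A : Matrix (Fin n) (Fin n) E => A.map ι) (hρ.dual σ)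
    simp only [Matrix.map_mul, Matrix.transpose_map] at h2
    rw [mapRep_apply, mapRep_apply]
    have h3 : (toE E (χ σ) • b).map ι = toE E' (χ σ) • b.map ι := by
      ext i k
      simp only [Matrix.map_apply, Matrix.smul_apply, smul_eq_mul, map_mul, map_toE]
    rw [h3] at h2
    exact h2

theorem det_ext (h : SqrtExt ι l m) {b : Matrix (Fin n) (Fin n) E} (hb : b.det ≠ 0) :
    (b.map ι).det ≠ 0 := by
  have h1 : (b.map ι).det = ι b.det := by
    have h2 := RingHom.map_det (ι : E →+* E') b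
    rw [RingHom.mapMatrix_apply] at h2
    exact h2.symm
  rw [h1]
  exact (map_ne_zero ι).2 hb

theorem parity_ext (h : SqrtExt ι l m) (hl0 : l ≠ 0) {I : Set G} {χ : G → ℤ_[2]} {κ : G → G}
    {ρ : G →* Matrix (Fin n) (Fin n) E} {b : Matrix (Fin n) (Fin n) E} {Φ : Type*} [Fintype Φ]
    {D : Φ → Subgroup G}
    (hp : Parity.ParityFormula I (fun g => toE E' (χ g)) κ (mapRep ι ρ) (b.map ι) D) :
    Parity.ParityFormula I (fun g => toE E (χ g)) κ ρ b D := by
  intro L hL
  have c1 : ∀ w, Parity.coboundaries (fun σ : D w => mapRep ι ρ σ) =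
      extW h (Parity.coboundaries fun σ : D w => ρ σ) := fun w =>
    eq_extW h hl0 fun x y => cob_iff h hl0 (fun σ : D w => ρ σ) x y
  have c2 : ∀ w, Parity.cocycles (fun σ : D w => mapRep ι ρ σ) =
      extW h (Parity.cocycles fun σ : D w => ρ σ) := fun w =>
    eq_extW h hl0 fun x y => coc_iff h hl0 (fun σ : D w => ρ σ) x y
  have c3 : Parity.coboundaries (mapRep ι ρ) = extW h (Parity.coboundaries ρ) :=
    eq_extW h hl0 fun x y => cob_iff h hl0 (fun σ : G => ρ σ) x y
  have c4 : Parity.selmerF I (fun g => toE E' (χ g)) κ (mapRep ι ρ) (b.map ι) D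
      (fun w => extW h (L w)) =
      extW h (Parity.selmerF I (fun g => toE E (χ g)) κ ρ b D L) := by
    refine eq_extW h hl0 fun x y => ?_
    have d1 := coc_iff h hl0 (fun σ : G => ρ σ) x y
    have d2 : ∀ w, (fun (σ : D w) i => ι (x σ i) + ι (y σ i) * m) ∈ extW h (L w) ↔
        (fun σ : D w => x σ) ∈ L w ∧ (fun σ : D w => y σ) ∈ L w := fun w =>
      pair_mem h hl0 (L w) (fun σ : D w => x σ) (fun σ : D w => y σ)
    have d3 : ∀ w, Parity.IsPerp (fun σ : D w => toE E' (χ σ)) (fun σ : D w => mapRep ι ρ (κ σ))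
        (b.map ι) (extW h (L w)) (fun (σ : D w) i => ι (x (κ σ) i) + ι (y (κ σ) i) * m) ↔
        Parity.IsPerp (fun σ : D w => toE E (χ σ)) (fun σ : D w => ρ (κ σ)) b (L w)
          (fun σ : D w => x (κ σ)) ∧
        Parity.IsPerp (fun σ : D w => toE E (χ σ)) (fun σ : D w => ρ (κ σ)) b (L w)
          (fun σ : D w => y (κ σ)) := fun w =>
      perp_iff' h hl0 (χ := fun σ : D w => χ σ) (fun σ : D w => ρ (κ σ)) b (L w)
        (fun σ : D w => x (κ σ)) (fun σ : D w => y (κ σ))
    have d4 : ∀ σ, (fun i => ι (x σ i) + ι (y σ i) * m) = 0 ↔ x σ = 0 ∧ y σ = 0 := by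
      intro σ
      constructor
      · intro h1
        refine pr_inj h hl0 (x' := 0) (y' := 0) ?_
        rw [h1]
        funext i
        simp
      · rintro ⟨h1, h2⟩
        rw [h1, h2]
        funext i
        simp
    constructor
    · rintro ⟨h1, h2, h3⟩
      have h1' := d1.1 h1
      exact ⟨⟨h1'.1, fun σ hσ => ((d4 σ).1 (h2 σ hσ)).1, fun w =>
        ⟨((d2 w).1 (h3 w).1).1, ((d3 w).1 (h3 w).2).1⟩⟩,
        ⟨h1'.2, fun σ hσ => ((d4 σ).1 (h2 σ hσ)).2, fun w =>
        ⟨((d2 w).1 (h3 w).1).2, ((d3 w).1 (h3 w).2).2⟩⟩⟩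
    · rintro ⟨⟨h1, h2, h3⟩, ⟨h1', h2', h3'⟩⟩
      exact ⟨d1.2 ⟨h1, h1'⟩, fun σ hσ => (d4 σ).2 ⟨h2 σ hσ, h2' σ hσ⟩, fun w =>
        ⟨(d2 w).2 ⟨(h3 w).1, (h3' w).1⟩, (d3 w).2 ⟨(h3 w).2, (h3' w).2⟩⟩⟩
  have c5 : Module.finrank E' (Parity.fixedBy fun σ : G => mapRep ι ρ σ) =
      Module.finrank E (Parity.fixedBy fun σ : G => ρ σ) := fix_finrank h hl0 fun σ : G => ρ σ
  have c6 : ∀ w, Module.finrank E' (Parity.fixedBy fun σ : D w => mapRep ι ρ σ) =
      Module.finrank E (Parity.fixedBy fun σ : D w => ρ σ) := fun w =>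
    fix_finrank h hl0 fun σ : D w => ρ σ
  obtain ⟨e1, e2, e3, e4⟩ := hp (fun w => extW h (L w)) fun w => by
    rw [c1, c2]
    exact ⟨extW_mono h (hL w).1, extW_mono h (hL w).2⟩
  rw [c4] at e2 e3 e4
  rw [c3] at e3 e4
  have f1 : ∀ w, FiniteDimensional E (L w) := fun w => (extW_fin h hl0 (L w)).1 (e1 w)
  have f2 : FiniteDimensional E (Parity.selmerF I (fun g => toE E (χ g)) κ ρ b D L) :=
    (extW_fin h hl0 _).1 e2
  have f3 : Parity.coboundaries ρ ≤ Parity.selmerF I (fun g => toE E (χ g)) κ ρ b D L := by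
    intro x hx
    have h1 := (pair_mem h hl0 _ x 0).1 (e3 ((pair_mem h hl0 _ x 0).2 ⟨hx, Submodule.zero_mem _⟩))
    exact h1.1
  refine ⟨f1, f2, f3, ?_⟩
  rw [extW_dim h hl0 f3, c5] at e4
  have e5 : ∀ w, Parity.dimModulo (extW h (L w)) (Parity.coboundaries fun σ : D w => mapRep ι ρ σ) =
      Parity.dimModulo (L w) (Parity.coboundaries fun σ : D w => ρ σ) := fun w => by
    rw [c1, extW_dim h hl0 (hL w).1]
  rw [Finset.sum_congr rfl fun w _ => by rw [e5 w, c6 w]] at e4
  exact e4

end Pool.Agent.Work.MP_787500_nt.LX
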