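import Mathlib
import Pool.Agent.Work.MP_787500_nt.LX.X2_Ring
import Pool.Agent.Work.MP_787500_nt.KR.L06

/-!
# Module LX3 (size M): a self-dual stable lattice over `E (√l)`

Let `T` be a maximal integral stable lattice (`KR.exists_latMax`), `T* = {x | ‖bil b x y‖ ≤ 1 for all y ∈ T}`:
stable (`y = ρ (κ g) (ρ (κ g)⁻¹ y)`, `‖χ g‖ ≤ 1`), `T ≤ T*`. For `j` with `2 j ≥ k` and `l ^ k T* ≤ T` the lattice
`T + l ^ j T*` is stable and integral, so `l ^ j T* ≤ T`. Start: some `l ^ k T* ≤ T` (`T*` bounded, `T` open).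
So `l T* ≤ T`. Put `T' = {z | z i = ι (x i) + ι (y i) * m, x ∈ T, y ∈ T*}`. It is a module over `OE E'`
(`SqrtExt.split`, `le_iff`: `m (x + y m) = l y + x m`), stable, bounded, open. `z = x + y m` is in the dual of
`T'` iff `b (x, t) + b (y, t) m` and `b (x, s) m + l b (y, s)` are integral for all `t ∈ T`, `s ∈ T*`, iff (`le_iff`)
`x, y ∈ T*` and `b (x, s)` integral for `s ∈ T*`, `l b (y, s)` integral (automatic). And `T** = T`:
`T** = {x | b (x, s) integral for all s ∈ T*}` is stable, contains `T`, is contained in `T*` (because `T ≤ T*`),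
hence integral, hence equal to `T` by maximality.
-/

set_option autoImplicit false
set_option linter.unusedSectionVars false

namespace Pool.Agent.Work.MP_787500_nt.LX

open Matrix
open Pool.Agent.Work.MP_787500_nt.PA (toE)
open Pool.Agent.Work.MP_787500_nt.GP

variable {E E' : Type*} [NormedField E] [NormedAlgebra ℚ_[2] E] [FiniteDimensional ℚ_[2] E]
  [NormedField E'] [NormedAlgebra ℚ_[2] E'] [FiniteDimensional ℚ_[2] E'] {ι : E →ₐ[ℚ_[2]] E'}
  {m : E'} {n : ℕ}

/-- the dual of a submodule for the form `b` -/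
private def x3Dual (b : Matrix (Fin n) (Fin n) E) (T : Submodule (OE E) (Fin n → E)) :
    Submodule (OE E) (Fin n → E) where
  carrier := {x | ∀ y ∈ T, ‖bil b x y‖ ≤ 1}
  add_mem' := by
    intro x x' hx hx' y hy
    have := Gn.ultra 2 E
    rw [bil_add_left]
    exact (IsUltrametricDist.norm_add_le_max _ _).trans (max_le (hx y hy) (hx' y hy))
  zero_mem' := by
    intro y _
    rw [bil, zero_dotProduct, norm_zero]
    exact zero_le_one
  smul_mem' := by
    intro c x hx y hy
    have e : bil b (c • x) y = (c : E) * bil b x y := bil_smul_left (c : E) x y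
    rw [e, norm_mul]
    exact mul_le_one₀ c.2 (norm_nonneg _) (hx y hy)

private theorem mem_x3Dual {b : Matrix (Fin n) (Fin n) E} {T : Submodule (OE E) (Fin n → E)}
    {x : Fin n → E} : x ∈ x3Dual b T ↔ ∀ y ∈ T, ‖bil b x y‖ ≤ 1 := Iff.rfl

private theorem x3_norm_toE (x : ℤ_[2]) : ‖toE E x‖ ≤ 1 := by
  have h : toE E x = algebraMap ℚ_[2] E (x : ℚ_[2]) := rfl
  rw [h, norm_algebraMap']
  exact x.2

private theorem x3Dual_st {G : Type*} [Group G] {ρ : G →* Matrix (Fin n) (Fin n) E}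
    {b : Matrix (Fin n) (Fin n) E} {χ : G → ℤ_[2]} {κ : G →* G}
    (hd : ∀ g x y, bil b (ρ g *ᵥ x) (ρ (κ g) *ᵥ y) = toE E (χ g) * bil b x y)
    {T : Submodule (OE E) (Fin n → E)} (hT : ∀ g, ∀ x ∈ T, ρ g *ᵥ x ∈ T) (g : G) (x : Fin n → E)
    (hx : x ∈ x3Dual b T) : ρ g *ᵥ x ∈ x3Dual b T := by
  intro y hy
  have e : y = ρ (κ g) *ᵥ (ρ (κ g)⁻¹ *ᵥ y) := by
    rw [mulVec_mulVec, ← map_mul, mul_inv_cancel, map_one, one_mulVec]
  rw [e, hd, norm_mul]
  exact mul_le_one₀ (x3_norm_toE _) (norm_nonneg _) (hx _ (hT _ _ hy))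

private theorem x3_bil_ext (b : Matrix (Fin n) (Fin n) E) {l : E} (h : SqrtExt ι l m)
    (x y t s : Fin n → E) :
    bil (b.map ι) (fun i => ι (x i) + ι (y i) * m) (fun i => ι (t i) + ι (s i) * m) =
      ι (bil b x t + l * bil b y s) + ι (bil b x s + bil b y t) * m := by
  simp only [bil, dotProduct, mulVec, Matrix.map_apply, map_add, map_sum, map_mul, Finset.mul_sum,
    Finset.sum_mul, ← Finset.sum_add_distrib, ← h.sq]
  refine Finset.sum_congr rfl fun i _ => Finset.sum_congr rfl fun j _ => ?_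
  ring

theorem exists_lat_sqrt {G : Type*} [Group G] {S : KR.FSys G} {ρ : G →* Matrix (Fin n) (Fin n) E}
    (hρ : KR.SmallRep S (fun g => ρ g)) {b : Matrix (Fin n) (Fin n) E} (hb : b.det ≠ 0) (hbs : bᵀ = b)
    {χ : G → ℤ_[2]} {κ : G →* G}
    (hd : ∀ g x y, bil b (ρ g *ᵥ x) (ρ (κ g) *ᵥ y) = toE E (χ g) * bil b x y)
    {l : OE E} (hl0 : (l : E) ≠ 0) (hl1 : ‖(l : E)‖ < 1) (hlm : ∀ x : E, ‖x‖ < 1 → ‖x‖ ≤ ‖(l : E)‖)
    (h : SqrtExt ι (l : E) m) :
    ∃ T' : Submodule (OE E') (Fin n → E'), (∀ g, ∀ x ∈ T', mapRep ι ρ g *ᵥ x ∈ T') ∧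
      (∀ x, x ∈ T' ↔ ∀ y ∈ T', ‖bil (b.map ι) x y‖ ≤ 1) ∧ (∃ R : ℝ, ∀ x ∈ T', ‖x‖ ≤ R) ∧
      ∃ r : ℝ, 0 < r ∧ ∀ x : Fin n → E', ‖x‖ < r → x ∈ T' := by
  obtain ⟨T, hst, hint, ⟨R, hR⟩, ⟨r, hr, hopn⟩, ⟨R', hR'⟩, hmax⟩ := KR.exists_latMax hρ hb hbs
  have hult := Gn.ultra 2 E
  set Ts := x3Dual b T with hTs
  have hTTs : T ≤ Ts := fun x hx y hy => hint x hx y hy
  have hsts : ∀ g, ∀ x ∈ Ts, ρ g *ᵥ x ∈ Ts := fun g x hx => x3Dual_st hd hst g x hx
  -- `T** = T`
  have hdd : x3Dual b Ts = T := by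
    refine hmax _ ?_ ?_ ?_
    · intro x hx y hy
      rw [bil_symm hbs]
      exact hy x hx
    · exact fun g x hx => x3Dual_st hd hsts g x hx
    · intro x hx y hy
      exact hx y fun z hz => hy z (hTTs hz)
  -- halving
  have hstep : ∀ j k : ℕ, k ≤ 2 * j → (∀ x ∈ Ts, l ^ k • x ∈ T) → ∀ x ∈ Ts, l ^ j • x ∈ T := by
    intro j k hjk hk
    let U : Submodule (OE E) (Fin n → E) := T ⊔ Ts.map (LinearMap.lsmul (OE E) (Fin n → E) (l ^ j))
    have hUmem : ∀ z, z ∈ U ↔ ∃ x ∈ T, ∃ y ∈ Ts, x + l ^ j • y = z := by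
      intro z
      rw [Submodule.mem_sup]
      constructor
      · rintro ⟨x, hx, w, hw, e⟩
        obtain ⟨y, hy, e2⟩ := Submodule.mem_map.1 hw
        exact ⟨x, hx, y, hy, by rw [← e, ← e2]; rfl⟩
      · rintro ⟨x, hx, y, hy, e⟩
        exact ⟨x, hx, l ^ j • y, Submodule.mem_map.2 ⟨y, hy, rfl⟩, e⟩
    have hU : U = T := by
      refine hmax U le_sup_left ?_ ?_
      · intro g z hz
        obtain ⟨x, hx, y, hy, e⟩ := (hUmem z).1 hz
        refine (hUmem _).2 ⟨ρ g *ᵥ x, hst g x hx, ρ g *ᵥ y, hsts g y hy, ?_⟩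
        have e2 : (l ^ j • y : Fin n → E) = ((l : E) ^ j) • y := by
          rw [← SubmonoidClass.coe_pow]
          rfl
        have e3 : (l ^ j • (ρ g *ᵥ y) : Fin n → E) = ((l : E) ^ j) • (ρ g *ᵥ y) := by
          rw [← SubmonoidClass.coe_pow]
          rfl
        rw [← e, mulVec_add, e2, e3, mulVec_smul]
      · intro z hz z' hz'
        obtain ⟨x, hx, y, hy, e⟩ := (hUmem z).1 hz
        obtain ⟨x', hx', y', hy', e'⟩ := (hUmem z').1 hz'
        have e2 : ∀ y : Fin n → E, (l ^ j • y : Fin n → E) = ((l : E) ^ j) • y := by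
          intro y
          rw [← SubmonoidClass.coe_pow]
          rfl
        have hlj : ‖(l : E) ^ j‖ ≤ 1 := by
          rw [norm_pow]
          exact pow_le_one₀ (norm_nonneg _) hl1.le
        rw [← e, ← e', bil_add_left, bil_add_right, bil_add_right, e2, e2]
        have hA : ‖bil b x x'‖ ≤ 1 := hint x hx x' hx'
        have hB : ‖bil b x ((l : E) ^ j • y')‖ ≤ 1 := by
          rw [bil_smul_right, norm_mul, bil_symm hbs]
          exact mul_le_one₀ hlj (norm_nonneg _) (hy' x hx)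
        have hC : ‖bil b ((l : E) ^ j • y) x'‖ ≤ 1 := by
          rw [bil_smul_left, norm_mul]
          exact mul_le_one₀ hlj (norm_nonneg _) (hy x' hx')
        have hD : ‖bil b ((l : E) ^ j • y) ((l : E) ^ j • y')‖ ≤ 1 := by
          obtain ⟨d, hd2⟩ := Nat.exists_eq_add_of_le hjk
          have e3 : bil b ((l : E) ^ j • y) ((l : E) ^ j • y') =
              (l : E) ^ d * bil b y' ((l : E) ^ k • y) := by
            rw [bil_smul_left, bil_smul_right, bil_smul_right, bil_symm hbs y y', ← mul_assoc,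
              ← mul_assoc, ← pow_add, ← pow_add]
            congr 2
            omega
          have h4 : ((l : E) ^ k • y : Fin n → E) ∈ T := by
            have := hk y hy
            rw [← SubmonoidClass.coe_pow]
            exact this
          rw [e3, norm_mul]
          refine mul_le_one₀ ?_ (norm_nonneg _) (hy' _ h4)
          rw [norm_pow]
          exact pow_le_one₀ (norm_nonneg _) hl1.le
        exact (IsUltrametricDist.norm_add_le_max _ _).trans (max_le
          ((IsUltrametricDist.norm_add_le_max _ _).trans (max_le hA hB))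
          ((IsUltrametricDist.norm_add_le_max _ _).trans (max_le hC hD)))
    intro x hx
    rw [← hU]
    refine (hUmem _).2 ⟨0, T.zero_mem, x, hx, zero_add _⟩
  -- start
  have hstart : ∃ k : ℕ, ∀ x ∈ Ts, l ^ k • x ∈ T := by
    have h1 : ∃ k : ℕ, ‖(l : E)‖ ^ k * (|R'| + 1) < r := by
      have h2 : Filter.Tendsto (fun k : ℕ => ‖(l : E)‖ ^ k * (|R'| + 1)) Filter.atTop
          (nhds (0 * (|R'| + 1))) :=
        (tendsto_pow_atTop_nhds_zero_of_lt_one (norm_nonneg _) hl1).mul_const _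
      rw [zero_mul] at h2
      exact (h2.eventually_lt_const hr).exists
    obtain ⟨k, hk⟩ := h1
    refine ⟨k, fun x hx => hopn _ ?_⟩
    have e2 : (l ^ k • x : Fin n → E) = ((l : E) ^ k) • x := by
      rw [← SubmonoidClass.coe_pow]
      rfl
    rw [e2, norm_smul, norm_pow]
    refine lt_of_le_of_lt ?_ hk
    refine mul_le_mul_of_nonneg_left ?_ (by positivity)
    exact (hR' x hx).trans ((le_abs_self _).trans (by linarith))
  have hl : ∀ x ∈ Ts, l • x ∈ T := by
    have key : ∀ k : ℕ, (∀ x ∈ Ts, l ^ k • x ∈ T) → ∀ x ∈ Ts, l ^ 1 • x ∈ T := by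
      intro k
      induction k using Nat.strong_induction_on with
      | _ k ih =>
        intro hk
        by_cases h2 : k ≤ 2
        · exact hstep 1 k (by omega) hk
        · exact ih ((k + 1) / 2) (by omega) (hstep _ k (by omega) hk)
    obtain ⟨k, hk⟩ := hstart
    have := key k hk
    simpa only [pow_one] using this
  -- the new lattice
  have hm0 : m ≠ 0 := h.ne hl0
  have hm1 : ‖m‖ < 1 := h.lt hl1
  have hmpos : 0 < ‖m‖ := norm_pos_iff.2 hm0
  let T' : Submodule (OE E') (Fin n → E') :=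
    { carrier := {z | ∃ x ∈ T, ∃ y ∈ Ts, ∀ i, z i = ι (x i) + ι (y i) * m}
      add_mem' := by
        rintro z z' ⟨x, hx, y, hy, hz⟩ ⟨x', hx', y', hy', hz'⟩
        refine ⟨x + x', T.add_mem hx hx', y + y', Ts.add_mem hy hy', fun i => ?_⟩
        simp only [Pi.add_apply, hz, hz', map_add]
        ring
      zero_mem' := ⟨0, T.zero_mem, 0, Ts.zero_mem, fun i => by simp⟩
      smul_mem' := by
        rintro c z ⟨x, hx, y, hy, hz⟩
        obtain ⟨p, q, hc⟩ := h.split (c : E')
        have hc1 : ‖(c : E')‖ ≤ 1 := c.2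
        rw [hc] at hc1
        obtain ⟨hp, hq⟩ := (h.le_iff hl0 hl1 hlm p q).1 hc1
        refine ⟨(⟨p, hp⟩ : OE E) • x + (⟨q, hq⟩ : OE E) • (l • y),
          T.add_mem (T.smul_mem _ hx) (T.smul_mem _ (hl y hy)),
          (⟨p, hp⟩ : OE E) • y + (⟨q, hq⟩ : OE E) • x,
          Ts.add_mem (Ts.smul_mem _ hy) (Ts.smul_mem _ (hTTs hx)), fun i => ?_⟩
        have e1 : (c • z) i = (c : E') * z i := rfl
        have e2 : ((⟨p, hp⟩ : OE E) • x + (⟨q, hq⟩ : OE E) • (l • y) : Fin n → E) i =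
          p * x i + q * ((l : E) * y i) := rfl
        have e3 : ((⟨p, hp⟩ : OE E) • y + (⟨q, hq⟩ : OE E) • x : Fin n → E) i =
          p * y i + q * x i := rfl
        rw [e1, e2, e3, hz, hc]
        simp only [map_add, map_mul, ← h.sq]
        ring }
  have hT'mem : ∀ z, z ∈ T' ↔ ∃ x ∈ T, ∃ y ∈ Ts, ∀ i, z i = ι (x i) + ι (y i) * m :=
    fun z => Iff.rfl
  refine ⟨T', ?_, ?_, ?_, ?_⟩
  · rintro g z ⟨x, hx, y, hy, hz⟩
    refine ⟨ρ g *ᵥ x, hst g x hx, ρ g *ᵥ y, hsts g y hy, fun i => ?_⟩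
    simp only [mapRep_apply, mulVec, dotProduct, Matrix.map_apply, hz, map_sum, map_mul,
      Finset.sum_mul, ← Finset.sum_add_distrib]
    refine Finset.sum_congr rfl fun j _ => ?_
    ring
  · intro z
    constructor
    · rintro ⟨x, hx, y, hy, hz⟩ w ⟨t, ht, s, hs, hw⟩
      have ez : z = fun i => ι (x i) + ι (y i) * m := funext hz
      have ew : w = fun i => ι (t i) + ι (s i) * m := funext hw
      rw [ez, ew, x3_bil_ext b h, h.le_iff hl0 hl1 hlm]
      constructor
      · refine (IsUltrametricDist.norm_add_le_max _ _).trans (max_le (hint x hx t ht) ?_)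
        have e1 : (l : E) * bil b y s = bil b s (l • y) := by
          rw [bil_symm hbs y s]
          exact (bil_smul_right (l : E) s y).symm
        rw [e1]
        exact hs _ (hl y hy)
      · refine (IsUltrametricDist.norm_add_le_max _ _).trans (max_le ?_ (hy t ht))
        rw [bil_symm hbs]
        exact hs x hx
    · intro hz
      choose x y hxy using fun i => h.split (z i)
      have ez : z = fun i => ι (x i) + ι (y i) * m := funext hxy
      have h1 : ∀ t ∈ T, ∀ s ∈ Ts, ‖bil b x t + (l : E) * bil b y s‖ ≤ 1 ∧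
          ‖bil b x s + bil b y t‖ ≤ 1 := by
        intro t ht s hs
        have := hz (fun i => ι (t i) + ι (s i) * m) ⟨t, ht, s, hs, fun i => rfl⟩
        rw [ez, x3_bil_ext b h, h.le_iff hl0 hl1 hlm] at this
        exact this
      have hz0 : ∀ v : Fin n → E, bil b v 0 = 0 := by
        intro v
        rw [bil, mulVec_zero, dotProduct_zero]
      have hy : y ∈ Ts := by
        intro t ht
        have := (h1 t ht 0 Ts.zero_mem).2
        rw [hz0, zero_add] at this
        exact this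
      have hx : x ∈ T := by
        rw [← hdd]
        intro s hs
        have := (h1 0 T.zero_mem s hs).2
        rw [hz0, add_zero] at this
        exact this
      exact ⟨x, hx, y, hy, hxy⟩
  · refine ⟨max |R| (|R'| * ‖m‖), ?_⟩
    rintro z ⟨x, hx, y, hy, hz⟩
    refine (pi_norm_le_iff_of_nonneg (le_max_of_le_left (abs_nonneg _))).2 fun i => ?_
    rw [hz, h.add]
    refine max_le_max ?_ ?_
    · exact (norm_le_pi_norm x i).trans ((hR x hx).trans (le_abs_self _))
    · refine mul_le_mul_of_nonneg_right ?_ (norm_nonneg _)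
      exact (norm_le_pi_norm y i).trans ((hR' y hy).trans (le_abs_self _))
  · refine ⟨r * ‖m‖, by positivity, fun z hz => ?_⟩
    choose x y hxy using fun i => h.split (z i)
    have h2 : ∀ i, max ‖x i‖ (‖y i‖ * ‖m‖) < r * ‖m‖ := by
      intro i
      rw [← h.add, ← hxy]
      exact (norm_le_pi_norm z i).trans_lt hz
    have hrm : r * ‖m‖ ≤ r := by
      calc r * ‖m‖ ≤ r * 1 := mul_le_mul_of_nonneg_left hm1.le hr.le
        _ = r := mul_one r
    refine ⟨x, hopn x ?_, y, hTTs (hopn y ?_), hxy⟩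
    · refine (pi_norm_lt_iff hr).2 fun i => ?_
      exact ((le_max_left _ _).trans_lt (h2 i)).trans_le hrm
    · refine (pi_norm_lt_iff hr).2 fun i => ?_
      have h3 := (le_max_right _ _).trans_lt (h2 i)
      exact lt_of_mul_lt_mul_right h3 (norm_nonneg _)

end Pool.Agent.Work.MP_787500_nt.LX
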